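import Pool.Agent.Helper16.SD.GoalsD

/-!
# Project SD (MP_fc6b1e_nt), packet D_DES (helper26): descent of an equivariant homomorphism

Pure group theory.
-/

set_option autoImplicit false

namespace Pool.Agent.Helper26.SD.D_DES

/-- A twisted sum over a finite group vanishes. -/
theorem sum_zero {Q O X : Type} [Group Q] [Fintype Q] [CommRing O] [IsDomain O] [AddCommGroup X]
    [Module O X] (κ : Q →* O) (D : Subgroup Q) (hD : ∃ δ ∈ D, κ δ ≠ 1) (f : Q → X)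
    (hf : ∀ q, ∀ δ ∈ D, f (q * δ) = f q) : ∑ q : Q, κ q⁻¹ • f q = 0 := by
  classical
  obtain ⟨δ, hδ, hκ⟩ := hD
  rw [← Finset.sum_fiberwise Finset.univ (fun q : Q => (q : Q ⧸ D)) (fun q => κ q⁻¹ • f q)]
  refine Finset.sum_eq_zero fun c _ => ?_
  have h1 : ∀ q ∈ Finset.univ.filter (fun q : Q => (q : Q ⧸ D) = c),
      κ q⁻¹ • f q = κ q⁻¹ • f c.out := by
    intro q hq
    rw [Finset.mem_filter] at hq
    have h2 : ((c.out : Q) : Q ⧸ D) = (q : Q ⧸ D) := by rw [hq.2]; exact Quotient.out_eq' c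
    have h3 := QuotientGroup.eq.1 h2
    have h4 := hf c.out _ h3
    rw [mul_inv_cancel_left] at h4
    rw [h4]
  rw [Finset.sum_congr rfl h1, ← Finset.sum_smul]
  have h5 : κ δ⁻¹ * ∑ q ∈ Finset.univ.filter (fun q : Q => (q : Q ⧸ D) = c), κ q⁻¹ =
      ∑ q ∈ Finset.univ.filter (fun q : Q => (q : Q ⧸ D) = c), κ q⁻¹ := by
    rw [Finset.mul_sum]
    refine Finset.sum_bij' (fun q _ => q * δ) (fun q _ => q * δ⁻¹) ?_ ?_ ?_ ?_ ?_
    · intro q hq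
      rw [Finset.mem_filter] at hq ⊢
      refine ⟨Finset.mem_univ _, ?_⟩
      rw [← hq.2, QuotientGroup.eq]
      simpa using hδ
    · intro q hq
      rw [Finset.mem_filter] at hq ⊢
      refine ⟨Finset.mem_univ _, ?_⟩
      rw [← hq.2, QuotientGroup.eq]
      simpa using hδ
    · intro q _
      simp
    · intro q _
      simp
    · intro q _
      rw [mul_inv_rev, map_mul]
  have h6 : κ δ⁻¹ ≠ 1 := by
    intro h
    apply hκ
    have h7 : κ δ * κ δ⁻¹ = 1 := by rw [← map_mul, mul_inv_cancel, map_one]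
    rwa [h, mul_one] at h7
  have h8 : (κ δ⁻¹ - 1) * ∑ q ∈ Finset.univ.filter (fun q : Q => (q : Q ⧸ D) = c), κ q⁻¹ = 0 := by
    rw [sub_mul, h5, one_mul, sub_self]
  rcases mul_eq_zero.1 h8 with h9 | h9
  · exact absurd (sub_eq_zero.1 h9) h6
  · rw [h9, zero_smul]

theorem t : Pool.Agent.Helper16.SD.D_DES := by
  intro Γ _ Γ₁ N _ _ _ hN hcomm hcyc O X _ _ _ _ cn hmul hone hΓ₁ hne ψ hψ hψe
  classical
  have hψ1 : ψ 1 = 0 := by
    have := hψ 1 N.one_mem 1 N.one_mem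
    rw [mul_one] at this
    simpa using this
  have hψinv : ∀ n ∈ N, ψ n⁻¹ = - ψ n := by
    intro n hn
    have := hψ n hn n⁻¹ (N.inv_mem hn)
    rw [mul_inv_cancel, hψ1] at this
    exact (neg_eq_of_add_eq_zero_right this.symm).symm
  have hcninv : ∀ g, cn g⁻¹ * cn g = 1 := by
    intro g
    rw [← hmul, inv_mul_cancel, hone]
  -- the commutator function
  set φ : Γ → Γ → X := fun g a => ψ (g * a * g⁻¹ * a⁻¹) with hφ
  have h1 : ∀ g a b, φ g (a * b) = φ g a + cn a • φ g b := by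
    intro g a b
    show ψ (g * (a * b) * g⁻¹ * (a * b)⁻¹) = ψ _ + cn a • ψ _
    have e : g * (a * b) * g⁻¹ * (a * b)⁻¹ =
        (g * a * g⁻¹ * a⁻¹) * (a * (g * b * g⁻¹ * b⁻¹) * a⁻¹) := by group
    have hm := hcomm g b
    rw [e, hψ _ (hcomm g a) _ (Subgroup.Normal.conj_mem inferInstance _ hm a), hψe a _ hm]
  have h2 : ∀ g b a, φ (g * b) a = cn g • φ b a + φ g a := by
    intro g b a
    show ψ (g * b * a * (g * b)⁻¹ * a⁻¹) = cn g • ψ _ + ψ _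
    have e : g * b * a * (g * b)⁻¹ * a⁻¹ =
        (g * (b * a * b⁻¹ * a⁻¹) * g⁻¹) * (g * a * g⁻¹ * a⁻¹) := by group
    have hm := hcomm b a
    rw [e, hψ _ (Subgroup.Normal.conj_mem inferInstance _ hm g) _ (hcomm g a), hψe g _ hm]
  have hφN : ∀ g, ∀ n ∈ N, φ g n = cn g • ψ n - ψ n := by
    intro g n hn
    show ψ (g * n * g⁻¹ * n⁻¹) = _
    rw [hψ _ (Subgroup.Normal.conj_mem inferInstance _ hn g) _ (N.inv_mem hn), hψe g _ hn,
      hψinv n hn, sub_eq_add_neg]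
  have hφN' : ∀ n ∈ N, ∀ a, φ n a = ψ n - cn a • ψ n := by
    intro n hn a
    show ψ (n * a * n⁻¹ * a⁻¹) = _
    have e : n * a * n⁻¹ * a⁻¹ = n * (a * n⁻¹ * a⁻¹) := by group
    rw [e, hψ _ hn _ (Subgroup.Normal.conj_mem inferInstance _ (N.inv_mem hn) a),
      hψe a _ (N.inv_mem hn), hψinv n hn, smul_neg, sub_eq_add_neg]
  obtain ⟨γ, hγ, hγ2⟩ := hcyc
  have h3 : ∀ b ∈ Γ₁, ∀ a ∈ Γ₁, φ b a = 0 := by
    intro b hb a ha
    obtain ⟨i, hi⟩ := hγ2 a ha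
    obtain ⟨j, hj⟩ := hγ2 b hb
    have ea : a = γ ^ (-i) * (γ ^ i * a) := by
      rw [← mul_assoc, ← zpow_add]
      simp
    have eb : b = γ ^ (-j) * (γ ^ j * b) := by
      rw [← mul_assoc, ← zpow_add]
      simp
    have k1 : φ (γ ^ (-j)) (γ ^ (-i)) = 0 := by
      show ψ (γ ^ (-j) * γ ^ (-i) * (γ ^ (-j))⁻¹ * (γ ^ (-i))⁻¹) = 0
      have e : γ ^ (-j) * γ ^ (-i) * (γ ^ (-j))⁻¹ * (γ ^ (-i))⁻¹ = 1 := by
        rw [← zpow_neg, ← zpow_neg, ← zpow_add, ← zpow_add, ← zpow_add]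
        simp
      rw [e, hψ1]
    have k2 : φ (γ ^ (-j)) a = 0 := by
      rw [ea, h1, k1, zero_add, hφN _ _ hi, hΓ₁ (γ ^ (-j)) (Γ₁.zpow_mem hγ _), one_smul, sub_self,
        smul_zero]
    rw [eb, h2, k2, add_zero, hφN' _ hj, hΓ₁ a ha, one_smul, sub_self, smul_zero]
  have h4 : ∀ g, ∀ b ∈ Γ₁, ∀ a ∈ Γ₁, φ (g * b) a = φ g a := by
    intro g b hb a ha
    rw [h2, h3 b hb a ha, smul_zero, zero_add]
  -- the character of the quotient
  let cnh : Γ →* O := ⟨⟨cn, hone⟩, hmul⟩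
  let κ : Γ ⧸ Γ₁ →* O := QuotientGroup.lift Γ₁ cnh (fun a ha => hΓ₁ a ha)
  have hκ : ∀ g : Γ, κ (g : Γ ⧸ Γ₁) = cn g := fun g => rfl
  let _ : Fintype (Γ ⧸ Γ₁) := Subgroup.fintypeQuotientOfFiniteIndex
  have hout : ∀ q : Γ ⧸ Γ₁, ((q.out : Γ) : Γ ⧸ Γ₁) = q := fun q => Quotient.out_eq' q
  have hκout : ∀ q : Γ ⧸ Γ₁, cn q.out = κ q := fun q => by rw [← hκ, hout]
  refine ⟨fun a => ∑ q : Γ ⧸ Γ₁, κ q⁻¹ • φ q.out a, ?_, ?_, ?_, ?_⟩
  · intro a ha b hb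
    show ∑ q : Γ ⧸ Γ₁, κ q⁻¹ • φ q.out (a * b) = _
    rw [← Finset.sum_add_distrib]
    refine Finset.sum_congr rfl fun q _ => ?_
    rw [h1, hΓ₁ a ha, one_smul, smul_add]
  · intro h a ha
    show ∑ q : Γ ⧸ Γ₁, κ q⁻¹ • φ q.out (h * a * h⁻¹) = cn h • ∑ q : Γ ⧸ Γ₁, κ q⁻¹ • φ q.out a
    rw [Finset.smul_sum]
    refine Finset.sum_congr rfl fun q _ => ?_
    set g := q.out
    have e1 : φ g (h * a * h⁻¹) = cn h • φ (h⁻¹ * g * h) a := by
      show ψ (g * (h * a * h⁻¹) * g⁻¹ * (h * a * h⁻¹)⁻¹) = cn h • ψ _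
      rw [← hψe h _ (hcomm _ _)]
      congr 1
      group
    have e2 : φ (h⁻¹ * g * h) a = φ g a := by
      have e3 : h⁻¹ * g * h = g * (g⁻¹ * h⁻¹ * (g⁻¹)⁻¹ * (h⁻¹)⁻¹) := by group
      rw [e3]
      exact h4 g _ (hN (hcomm _ _)) a ha
    rw [e1, e2, smul_comm]
  · intro n hn
    show ∑ q : Γ ⧸ Γ₁, κ q⁻¹ • φ q.out n = _
    have e1 : ∀ q : Γ ⧸ Γ₁, κ q⁻¹ • φ q.out n = ψ n - κ q⁻¹ • ψ n := by
      intro q
      rw [hφN _ _ hn, smul_sub, smul_smul, hκout, ← map_mul, inv_mul_cancel, map_one, one_smul]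
    rw [Finset.sum_congr rfl fun q _ => e1 q, Finset.sum_sub_distrib, Finset.sum_const,
      sum_zero κ ⊤ ?_ (fun _ => ψ n) (fun _ _ _ => rfl), sub_zero, Finset.card_univ,
      Subgroup.index_eq_card, Nat.card_eq_fintype_card]
    obtain ⟨g, hg⟩ := hne
    exact ⟨(g : Γ ⧸ Γ₁), Subgroup.mem_top _, hg⟩
  · intro D hD hDne a haD haΓ
    show ∑ q : Γ ⧸ Γ₁, κ q⁻¹ • φ q.out a = 0
    have hδ : ∀ g, ∀ δ ∈ D, φ (g * δ) a = φ g a := by
      intro g δ hδ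
      rw [h2]
      have e1 : φ δ a = 0 := by
        show ψ (δ * a * δ⁻¹ * a⁻¹) = 0
        exact hD _ (D.mul_mem (D.mul_mem (D.mul_mem hδ haD) (D.inv_mem hδ)) (D.inv_mem haD))
          (hcomm _ _)
      rw [e1, smul_zero, zero_add]
    have hinv : ∀ g g' : Γ, (g : Γ ⧸ Γ₁) = (g' : Γ ⧸ Γ₁) → φ g a = φ g' a := by
      intro g g' h
      have h5 := QuotientGroup.eq.1 h
      have h6 := h4 g _ h5 a haΓ
      rw [mul_inv_cancel_left] at h6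
      exact h6.symm
    refine sum_zero κ (D.map (QuotientGroup.mk' Γ₁)) ?_ (fun q => φ q.out a) ?_
    · obtain ⟨g, hg, hg2⟩ := hDne
      exact ⟨(g : Γ ⧸ Γ₁), Subgroup.mem_map_of_mem _ hg, hg2⟩
    · intro q δ' hδ'
      obtain ⟨δ, hδD, rfl⟩ := Subgroup.mem_map.1 hδ'
      show φ (q * (QuotientGroup.mk' Γ₁ δ)).out a = φ q.out a
      rw [hinv _ (q.out * δ) ?_, hδ _ _ hδD]
      rw [hout, QuotientGroup.mk_mul, hout]
      rfl

end Pool.Agent.Helper26.SD.D_DES
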