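import Pool.Agent.Helper71.SD.Goals

/-! Packet VAN: vanishing of the homotopy classes of maps into `Susp G 67`. -/

set_option autoImplicit false

namespace Pool.Agent.Helper71.SD.VAN

open Pool.Agent.Helper71.AHtpy SimpleGraph

theorem chain {k : ℕ} {W : Type} {G : SimpleGraph W} {x₀ : W} {F : ℕ → AMap k G x₀}
    (h : ∀ t, Step (F t) (F (t + 1))) (t : ℕ) : Homotopic (F 0) (F t) := by
  induction t with
  | zero => exact Homotopic.refl _
  | succ t ih => exact ih.trans (h t).homotopic

/-- the constant map -/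
def kmap {V : Type} (G : SimpleGraph V) (v : V) : AMap 60 (Susp G 67) (pt 67 v 0) where
  toFun _ := pt 67 v 0
  isMap := fun _ _ _ => Near.refl _ _
  bounded := ⟨0, fun _ _ => rfl⟩

theorem pt_zero {V : Type} (n : ℕ) (x y : V) : pt n x 0 = pt n y 0 :=
  (pt_eq_iff (Nat.zero_le _) (Nat.zero_le _)).2 ⟨rfl, Or.inl rfl⟩

theorem st_cases {z z' : Fin 60 → ℤ} {i : Fin 60} (hi : z' i = z i + 1)
    (hj : ∀ j, j ≠ i → z j = z' j) :
    (fun l => z l / 128) = (fun l => z' l / 128) ∨
    ((grid (Fin 60)).Adj (fun l => z l / 128) (fun l => z' l / 128) ∧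
      (fun l => z l - z l / 128) = (fun l => z' l - z' l / 128)) := by
  by_cases h : z i / 128 = z' i / 128
  · left
    funext l
    by_cases hl : l = i
    · rw [hl]; exact h
    · rw [hj l hl]
  · right
    constructor
    · rw [grid_adj_iff]
      refine ⟨i, ?_, ?_⟩
      · left
        show z' i / 128 = z i / 128 + 1
        omega
      · intro l hl
        show z l / 128 = z' l / 128
        rw [hj l hl]
    · funext l
      by_cases hl : l = i
      · rw [hl]
        omega
      · rw [hj l hl]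

theorem near_t {z z' : Fin 60 → ℤ} {i : Fin 60} (hi : z' i = z i + 1)
    (hj : ∀ j, j ≠ i → z j = z' j) :
    Near (grid (Fin 60)) (fun l => z l - z l / 128) (fun l => z' l - z' l / 128) := by
  apply near_grid_of i
  · rw [abs_le]
    constructor <;> omega
  · intro l hl
    show z l - z l / 128 = z' l - z' l / 128
    rw [hj l hl]

theorem null (hHT1 : S_HT1) (hFREEQ : S_FREEQ) (V : Type) (G : SimpleGraph V) (A : Amb G)
    (v : V) (f : AMap 60 (Susp G 67) (pt 67 v 0)) : Homotopic f (kmap G v) := by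
  classical
  obtain ⟨H, g, hHlip, hH67, hH3, hg, hfg⟩ := hHT1 V G v f
  refine hfg.trans ?_
  -- the finite set of non-polar points
  have hQfin : ({y | 4 ≤ lev (f.toFun y) ∧ lev (f.toFun y) + 4 ≤ 67} :
      Set (Fin 60 → ℤ)).Finite := by
    obtain ⟨N, hN⟩ := f.bounded
    refine (Set.finite_Icc (fun _ => -(N : ℤ)) (fun _ => (N : ℤ))).subset ?_
    intro y hy
    have h0 : ∀ i, |y i| ≤ (N : ℤ) := by
      intro i
      by_contra hcon
      push Not at hcon
      have h1 := hN y ⟨i, hcon⟩
      have h2 : 4 ≤ lev (f.toFun y) := hy.1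
      rw [h1, lev_pt] at h2
      omega
    constructor
    · intro i; exact (abs_le.1 (h0 i)).1
    · intro i; exact (abs_le.1 (h0 i)).2
  set Q : Set (Fin 60 → ℤ) := {y | 4 ≤ lev (f.toFun y) ∧ lev (f.toFun y) + 4 ≤ 67} with hQ
  haveI : Finite Q := hQfin.to_subtype
  have hfree : Free A.b ((grid (Fin 60)).induce Q) (fun y => lab (f.toFun y.1)) :=
    hFREEQ V G A 67 f.toFun f.isMap
  have hγ : IsGraphMap ((grid (Fin 60)).induce Q) G (fun y => lab (f.toFun y.1)) := by
    intro a b hab
    have h1 : (grid (Fin 60)).Adj a.1 b.1 := hab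
    have h2 := f.isMap _ _ h1
    rw [← pt_lab_lev (f.toFun a.1), ← pt_lab_lev (f.toFun b.1),
      near_pt_iff (lev_le _) (lev_le _)] at h2
    have ha := a.2
    have hb := b.2
    simp only [hQ, Set.mem_setOf_eq] at ha hb
    obtain ⟨_, h | h | h | h | h | h⟩ := h2
    · omega
    · omega
    · omega
    · omega
    · exact Or.inl h
    · exact Or.inr h.2
  obtain ⟨L, Φ, c, hΦ0, hΦmap, hΦstep, hΦL, _⟩ := A.att Q _ _ hγ hfree
  -- heights
  let b : (Fin 60 → ℤ) → ℕ := fun z => H (fun i => z i - z i / 128)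
  have hb67 : ∀ z, b z ≤ 67 := fun z => hH67 _
  have hblip : ∀ (z z' : Fin 60 → ℤ) (i : Fin 60), z' i = z i + 1 → (∀ j, j ≠ i → z j = z' j) →
      b z ≤ b z' + 1 ∧ b z' ≤ b z + 1 := by
    intro z z' i hi hj
    rcases near_t hi hj with h | h
    · have : b z = b z' := congrArg H h
      omega
    · exact ⟨hHlip _ _ h, hHlip _ _ h.symm⟩
  have hbQ : ∀ z, 0 < b z → b z < 67 → (fun i => z i / 128) ∈ Q := fun z h1 h2 => hH3 z ⟨h1, h2⟩
  -- outside a box the height is zero
  obtain ⟨N, hN⟩ : ∃ N : ℕ, ∀ z : Fin 60 → ℤ, (∃ i, (N : ℤ) < |z i|) → b z = 0 := by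
    obtain ⟨N, hN⟩ := g.bounded
    refine ⟨N, fun z hz => ?_⟩
    have h1 := hN z hz
    rw [hg z] at h1
    have h2 := congrArg lev h1
    rw [lev_pt, lev_pt] at h2
    have h3 := hb67 z
    have h4 : min (b z) 67 = min 0 67 := h2
    omega
  let lb : ℕ → (Fin 60 → ℤ) → V := fun l z =>
    if h : (fun i => z i / 128) ∈ Q then Φ l ⟨fun i => z i / 128, h⟩
    else lab (f.toFun fun i => z i / 128)
  have hlbQ : ∀ l z (h : (fun i => z i / 128) ∈ Q), lb l z = Φ l ⟨fun i => z i / 128, h⟩ :=
    fun l z h => dif_pos h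
  have hlbs : ∀ l z z', (fun i => z i / 128) = (fun i => z' i / 128) → lb l z = lb l z' := by
    intro l z z' h
    simp only [lb]
    by_cases h1 : (fun i => z i / 128) ∈ Q
    · have h2 : (fun i => z' i / 128) ∈ Q := h ▸ h1
      rw [dif_pos h1, dif_pos h2]
      congr 1
      exact Subtype.ext h
    · have h2 : (fun i => z' i / 128) ∉ Q := h ▸ h1
      rw [dif_neg h1, dif_neg h2, h]
  let GG : ℕ → AMap 60 (Susp G 67) (pt 67 v 0) := fun l =>
    { toFun := fun z => pt 67 (lb l z) (b z)
      isMap := by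
        apply isGraphMap_grid
        intro z z' i hi hj
        rw [near_pt_iff (hb67 _) (hb67 _)]
        obtain ⟨l1, l2⟩ := hblip z z' i hi hj
        refine ⟨⟨l1, l2⟩, ?_⟩
        rcases st_cases hi hj with h | ⟨h, ht⟩
        · exact Or.inr (Or.inr (Or.inr (Or.inr (Or.inl (hlbs l z z' h)))))
        · have hbb : b z = b z' := congrArg H ht
          by_cases h0 : b z = 0
          · exact Or.inl h0
          by_cases h6 : b z = 67
          · exact Or.inr (Or.inr (Or.inl h6))
          have hz := hbQ z (by omega) (by have := hb67 z; omega)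
          have hz' := hbQ z' (by omega) (by have := hb67 z; omega)
          rw [hlbQ l z hz, hlbQ l z' hz']
          have h7 : Near G (Φ l ⟨fun i => z i / 128, hz⟩) (Φ l ⟨fun i => z' i / 128, hz'⟩) :=
            hΦmap l _ _ h
          rcases h7 with h7 | h7
          · exact Or.inr (Or.inr (Or.inr (Or.inr (Or.inl h7))))
          · exact Or.inr (Or.inr (Or.inr (Or.inr (Or.inr ⟨hbb, h7⟩))))
      bounded := ⟨N, fun z hz => by
        show pt 67 (lb l z) (b z) = pt 67 v 0
        rw [hN z hz]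
        exact pt_zero _ _ _⟩ }
  have hGG : ∀ t, Step (GG t) (GG (t + 1)) := by
    intro t z
    show Near (Susp G 67) (pt 67 (lb t z) (b z)) (pt 67 (lb (t + 1) z) (b z))
    rw [near_pt_iff (hb67 _) (hb67 _)]
    refine ⟨⟨by omega, by omega⟩, ?_⟩
    by_cases h : (fun i => z i / 128) ∈ Q
    · rw [hlbQ t z h, hlbQ (t + 1) z h]
      rcases hΦstep t ⟨_, h⟩ with h7 | h7
      · exact Or.inr (Or.inr (Or.inr (Or.inr (Or.inl h7))))
      · exact Or.inr (Or.inr (Or.inr (Or.inr (Or.inr ⟨rfl, h7⟩))))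
    · refine Or.inr (Or.inr (Or.inr (Or.inr (Or.inl ?_))))
      simp only [lb]
      rw [dif_neg h, dif_neg h]
  have hGG0 : GG 0 = g := by
    apply AMap.ext
    intro z
    rw [hg z]
    show pt 67 (lb 0 z) (b z) = _
    have : lb 0 z = lab (f.toFun fun i => z i / 128) := by
      simp only [lb]
      by_cases h : (fun i => z i / 128) ∈ Q
      · rw [dif_pos h, hΦ0]
      · rw [dif_neg h]
    rw [this]
  let KK : ℕ → AMap 60 (Susp G 67) (pt 67 v 0) := fun τ =>
    { toFun := fun z => pt 67 c (min (b z) (67 - τ))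
      isMap := by
        apply isGraphMap_grid
        intro z z' i hi hj
        have h1 := hb67 z
        have h2 := hb67 z'
        rw [near_pt_iff (by omega) (by omega)]
        obtain ⟨l1, l2⟩ := hblip z z' i hi hj
        exact ⟨⟨by omega, by omega⟩, Or.inr (Or.inr (Or.inr (Or.inr (Or.inl rfl))))⟩
      bounded := ⟨N, fun z hz => by
        show pt 67 c (min (b z) (67 - τ)) = pt 67 v 0
        rw [hN z hz, Nat.zero_min]
        exact pt_zero _ _ _⟩ }
  have hKK : ∀ t, Step (KK t) (KK (t + 1)) := by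
    intro t z
    show Near (Susp G 67) (pt 67 c (min (b z) (67 - t))) (pt 67 c (min (b z) (67 - (t + 1))))
    have h1 := hb67 z
    rw [near_pt_iff (by omega) (by omega)]
    exact ⟨⟨by omega, by omega⟩, Or.inr (Or.inr (Or.inr (Or.inr (Or.inl rfl))))⟩
  have hGL : GG L = KK 0 := by
    apply AMap.ext
    intro z
    show pt 67 (lb L z) (b z) = pt 67 c (min (b z) (67 - 0))
    have h1 := hb67 z
    rw [pt_eq_iff h1 (by omega)]
    refine ⟨by omega, ?_⟩
    by_cases h0 : b z = 0
    · exact Or.inl h0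
    by_cases h6 : b z = 67
    · exact Or.inr (Or.inl h6)
    have hz := hbQ z (by omega) (by omega)
    rw [hlbQ L z hz, hΦL L (le_refl _)]
    exact Or.inr (Or.inr rfl)
  have hK67 : KK 67 = kmap G v := by
    apply AMap.ext
    intro z
    show pt 67 c (min (b z) (67 - 67)) = pt 67 v 0
    rw [Nat.sub_self, Nat.min_zero]
    exact pt_zero _ _ _
  have c1 := chain hGG L
  have c2 := chain hKK 67
  rw [hGG0, hGL] at c1
  rw [hK67] at c2
  exact c1.trans c2

theorem van : S_HT1 → S_FREEQ → S_VAN := by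
  intro hHT1 hFREEQ V G A v f g
  exact (null hHT1 hFREEQ V G A v f).trans (null hHT1 hFREEQ V G A v g).symm

end Pool.Agent.Helper71.SD.VAN
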